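import Mathlib
import Pool.Agent.H624R3.CP.Stmts

set_option autoImplicit false

open MeasureTheory Metric Real

namespace Pool.Agent.H612K.CP

open Pool.Agent.H624R3.CP

/-- span of the previous vectors -/
noncomputable def Fs {d n : ℕ} (v : Fin n → E d) (l : Fin n) : Submodule ℝ (E d) :=
  Submodule.span ℝ (v '' Set.Iio l)

theorem Fs_castSucc {d n : ℕ} (v : Fin (n + 1) → E d) (l : Fin n) :
    Fs v l.castSucc = Fs (fun i : Fin n => v i.castSucc) l := by
  unfold Fs
  congr 1
  ext x
  simp only [Set.mem_image, Set.mem_Iio]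
  constructor
  · rintro ⟨i, hi, rfl⟩
    have h1 : i.val < n := lt_of_lt_of_le (Fin.lt_def.1 hi) (by
      have := l.2
      simp)
    refine ⟨⟨i.val, h1⟩, ?_, rfl⟩
    exact Fin.lt_def.2 (Fin.lt_def.1 hi)
  · rintro ⟨i, hi, rfl⟩
    exact ⟨i.castSucc, Fin.castSucc_lt_castSucc_iff.2 hi, rfl⟩

theorem Fs_last {d n : ℕ} (v : Fin (n + 1) → E d) :
    Fs v (Fin.last n) = Submodule.span ℝ (Set.range (fun i : Fin n => v i.castSucc)) := by
  unfold Fs
  congr 1
  ext x
  simp only [Set.mem_image, Set.mem_Iio, Set.mem_range]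
  constructor
  · rintro ⟨i, hi, rfl⟩
    exact ⟨i.castPred hi.ne, by simp⟩
  · rintro ⟨i, rfl⟩
    exact ⟨i.castSucc, Fin.castSucc_lt_last i, rfl⟩

theorem gram_succ {d n : ℕ} (v : Fin (n + 1) → E d) : ∃ b : ℝ,
    infDist (v (Fin.last n)) (Fs v (Fin.last n) : Set (E d)) ≤ b ∧
    gram v = gram (fun i : Fin n => v i.castSucc) * b ^ 2 := by
  classical
  rw [Fs_last]
  set w : Fin n → E d := fun i => v i.castSucc with hw
  set F := Submodule.span ℝ (Set.range w) with hF
  set q := F.starProjection (v (Fin.last n)) with hq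
  set b := v (Fin.last n) - q with hb
  have hqF : q ∈ F := by
    rw [hq]
    exact Submodule.starProjection_apply_mem _ _
  have horth : ∀ x ∈ F, inner ℝ b x = 0 := by
    intro x hx
    exact Submodule.starProjection_inner_eq_zero (K := F) (v (Fin.last n)) x hx
  refine ⟨‖b‖, ?_, ?_⟩
  · have h1 := infDist_le_dist_of_mem (x := v (Fin.last n)) (show q ∈ (F : Set (E d)) from hqF)
    rw [dist_eq_norm] at h1
    exact h1
  · obtain ⟨c, hc⟩ := (Submodule.mem_span_range_iff_exists_fun ℝ).1 hqF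
    unfold gram
    set A : Matrix (Fin (n + 1)) (Fin (n + 1)) ℝ := Matrix.of fun a b => inner ℝ (v a) (v b) with hA
    set rb : Fin (n + 1) → ℝ := fun j => inner ℝ b (v j) with hrb
    set c' : Fin (n + 1) → ℝ := Fin.snoc (α := fun _ => ℝ) c 0 with hc'
    have h1 : A (Fin.last n) = (∑ k, c' k • A k) + rb := by
      ext j
      rw [Pi.add_apply, Finset.sum_apply, Fin.sum_univ_castSucc]
      simp only [Pi.smul_apply, smul_eq_mul, hc', Fin.snoc_castSucc, Fin.snoc_last, zero_mul,
        add_zero, hA, Matrix.of_apply, hrb]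
      have h2 : v (Fin.last n) = (∑ i, c i • w i) + b := by rw [hc, hb]; abel
      conv_lhs => rw [h2]
      rw [inner_add_left, sum_inner]
      congr 1
      refine Finset.sum_congr rfl fun i _ => ?_
      rw [inner_smul_left]
      rfl
    have h3 : A.det = (A.updateRow (Fin.last n) rb).det := by
      have h4 : A = A.updateRow (Fin.last n) ((∑ k, c' k • A k) + rb) := by
        rw [← h1, Matrix.updateRow_eq_self]
      conv_lhs => rw [h4]
      rw [Matrix.det_updateRow_add, Matrix.det_updateRow_sum]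
      simp [hc']
    rw [h3, Matrix.det_succ_row _ (Fin.last n), Fin.sum_univ_castSucc]
    have h5 : ∀ i : Fin n, rb i.castSucc = 0 := by
      intro i
      exact horth _ (Submodule.subset_span ⟨i, rfl⟩)
    have h6 : rb (Fin.last n) = ‖b‖ ^ 2 := by
      have h7 : v (Fin.last n) = q + b := by rw [hb]; abel
      simp only [hrb]
      rw [h7, inner_add_right, horth q hqF, zero_add, real_inner_self_eq_norm_sq]
    have h8 : ((A.updateRow (Fin.last n) rb).submatrix (Fin.last n).succAbove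
        (Fin.last n).succAbove) = Matrix.of fun a b => inner ℝ (w a) (w b) := by
      rw [Matrix.submatrix_updateRow_succAbove]
      ext a b
      simp [hA, hw, Matrix.submatrix_apply]
    rw [h8]
    have h9 : ∑ i : Fin n, (-1 : ℝ) ^ (((Fin.last n : Fin (n + 1)) : ℕ) + ((i.castSucc : Fin (n + 1)) : ℕ)) *
        (A.updateRow (Fin.last n) rb) (Fin.last n) i.castSucc *
        ((A.updateRow (Fin.last n) rb).submatrix (Fin.last n).succAbove
          i.castSucc.succAbove).det = 0 := by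
      refine Finset.sum_eq_zero fun i _ => ?_
      rw [Matrix.updateRow_self, h5]
      ring
    rw [h9, Matrix.updateRow_self, h6]
    have h10 : (-1 : ℝ) ^ (((Fin.last n : Fin (n + 1)) : ℕ) + ((Fin.last n : Fin (n + 1)) : ℕ)) = 1 :=
      Even.neg_one_pow ⟨_, rfl⟩
    rw [h10]
    ring

theorem gram_ge {d : ℕ} : ∀ (n : ℕ) (v : Fin n → E d),
    ∏ l, infDist (v l) (Fs v l : Set (E d)) ^ 2 ≤ gram v := by
  intro n
  induction n with
  | zero =>
    intro v
    simp [gram]
  | succ n ih =>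
    intro v
    obtain ⟨b, hb, hg⟩ := gram_succ v
    rw [hg, Fin.prod_univ_castSucc]
    have h1 := ih (fun i : Fin n => v i.castSucc)
    have h2 : ∏ l : Fin n, infDist (v l.castSucc) (Fs v l.castSucc : Set (E d)) ^ 2 =
        ∏ l : Fin n, infDist (v l.castSucc) (Fs (fun i : Fin n => v i.castSucc) l : Set (E d)) ^ 2 := by
      refine Finset.prod_congr rfl fun l _ => ?_
      rw [Fs_castSucc]
    rw [h2]
    have h3 : 0 ≤ infDist (v (Fin.last n)) (Fs v (Fin.last n) : Set (E d)) := infDist_nonneg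
    have h4 : 0 ≤ ∏ l : Fin n, infDist (v l.castSucc)
        (Fs (fun i : Fin n => v i.castSucc) l : Set (E d)) ^ 2 :=
      Finset.prod_nonneg fun l _ => by positivity
    exact mul_le_mul h1 (pow_le_pow_left₀ h3 hb 2) (by positivity) (h4.trans h1)

/-- the weight -/
noncomputable def hh {d : ℕ} (s : ℕ) (F : Submodule ℝ (E d)) (x : E d) : ENNReal :=
  (ENNReal.ofReal (infDist x (F : Set (E d)) ^ s))⁻¹

/-- the pointwise inequality -/
theorem one_le_prod {d j s : ℕ} (v : Fin j → E d) (κ : ℝ) (hκ : 0 < κ)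
    (hg : gram v ≤ κ ^ (2 * j)) :
    1 ≤ ENNReal.ofReal (κ ^ (j * s)) * ∏ l, hh s (Fs v l) (v l) := by
  have h0 : ∀ l, 0 ≤ infDist (v l) (Fs v l : Set (E d)) := fun l => infDist_nonneg
  have h1 : (∏ l, infDist (v l) (Fs v l : Set (E d))) ≤ κ ^ j := by
    have h2 := (gram_ge j v).trans hg
    rw [Finset.prod_pow, mul_comm 2 j, pow_mul] at h2
    exact le_of_sq_le_sq h2 (by positivity)
  have h3 : ∏ l, infDist (v l) (Fs v l : Set (E d)) ^ s ≤ κ ^ (j * s) := by
    rw [Finset.prod_pow, pow_mul]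
    exact pow_le_pow_left₀ (Finset.prod_nonneg fun l _ => h0 l) h1 s
  have h4 : ∏ l, hh s (Fs v l) (v l) =
      (∏ l, ENNReal.ofReal (infDist (v l) (Fs v l : Set (E d)) ^ s))⁻¹ := by
    unfold hh
    rw [ENNReal.prod_inv_distrib]
    intro a _ b _ _
    right
    exact ENNReal.ofReal_ne_top
  rw [h4, ← ENNReal.ofReal_prod_of_nonneg (fun l _ => pow_nonneg (h0 l) s)]
  have h5 : ENNReal.ofReal (∏ l, infDist (v l) (Fs v l : Set (E d)) ^ s) ≤
      ENNReal.ofReal (κ ^ (j * s)) := ENNReal.ofReal_le_ofReal h3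
  have h6 : ENNReal.ofReal (κ ^ (j * s)) ≠ 0 := by
    rw [Ne, ENNReal.ofReal_eq_zero, not_le]
    positivity
  calc (1 : ENNReal) = ENNReal.ofReal (κ ^ (j * s)) * (ENNReal.ofReal (κ ^ (j * s)))⁻¹ :=
        (ENNReal.mul_inv_cancel h6 ENNReal.ofReal_ne_top).symm
    _ ≤ _ := by gcongr

end Pool.Agent.H612K.CP
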