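import Mathlib
import Pool.Agent.H612K.CP.Rset1

set_option autoImplicit false

open MeasureTheory Metric Real

namespace Pool.Agent.H612K.CP

open Pool.Agent.H624R3.CP

theorem Fs_finrank {d n : ℕ} (v : Fin n → E d) (l : Fin n) :
    Module.finrank ℝ (Fs v l) ≤ l.val := by
  classical
  unfold Fs
  have h1 : (v '' Set.Iio l) = ((Finset.image v (Finset.Iio l) : Finset (E d)) : Set (E d)) := by
    simp
  rw [h1]
  refine (finrank_span_finset_le_card _).trans ?_
  refine Finset.card_image_le.trans ?_
  simp

/-- one step of the integration -/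
theorem step_integral (hINF : TaskINF) (hVBP : TaskVBP) {d j : ℕ} (hj : j ≤ d)
    (hjd : 10 * j ≤ d) (F : Submodule ℝ (E d)) (hF : Module.finrank ℝ F < j)
    (p : E d) (ρ : ℝ) (hρ : 0 < ρ) :
    ∫⁻ x, (closedBall p ρ).indicator (fun x => hh (d - j) F x) x ≤
      ENNReal.ofReal (d * (vb d * exp ((21 / 125) * d)) * ρ ^ j) := by
  rw [lintegral_indicator measurableSet_closedBall]
  have hFtop : F ≠ ⊤ := by
    intro h
    rw [h, finrank_top, finrank_euclideanSpace, Fintype.card_fin] at hF
    omega
  have hnull : volume (F : Set (E d)) = 0 := Measure.addHaar_submodule volume F hFtop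
  have hFc : IsClosed (F : Set (E d)) := Submodule.closed_of_finiteDimensional F
  have hae : ∀ᵐ x ∂(volume.restrict (closedBall p ρ)), hh (d - j) F x =
      ENNReal.ofReal ((infDist x (F : Set (E d)) ^ (d - j))⁻¹) := by
    apply ae_restrict_of_ae
    have h1 : ∀ᵐ x ∂(volume : Measure (E d)), x ∉ (F : Set (E d)) := measure_eq_zero_iff_ae_notMem.1 hnull
    filter_upwards [h1] with x hx
    have h2 : 0 < infDist x (F : Set (E d)) :=
      (hFc.notMem_iff_infDist_pos ⟨0, F.zero_mem⟩).1 hx
    unfold hh
    rw [ENNReal.ofReal_inv_of_pos (by positivity)]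
  rw [lintegral_congr_ae hae]
  refine (hINF d (Module.finrank ℝ F) (d - j) F p ρ hρ rfl (by omega)).trans ?_
  apply ENNReal.ofReal_le_ofReal
  have e1 : d - (d - j) = j := by omega
  rw [e1]
  have h3 := hVBP (Module.finrank ℝ F) (d - Module.finrank ℝ F) d (by omega) (by omega)
  have h4 : (0 : ℝ) ≤ (d : ℝ) := Nat.cast_nonneg d
  have h5 : 0 ≤ ρ ^ j := by positivity
  calc (d : ℝ) * vb (Module.finrank ℝ F) * vb (d - Module.finrank ℝ F) * ρ ^ j
      = d * (vb (Module.finrank ℝ F) * vb (d - Module.finrank ℝ F)) * ρ ^ j := by ring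
    _ ≤ _ := by gcongr

/-- the integrand on tuples -/
noncomputable def gg {d n : ℕ} (s : ℕ) (p : E d) (ρ : ℝ) (v : Fin n → E d) : ENNReal :=
  ∏ l, (closedBall p ρ).indicator (fun x => hh s (Fs v l) x) (v l)

theorem gg_succ {d n : ℕ} (s : ℕ) (p : E d) (ρ : ℝ) (w : Fin n → E d) (x : E d) :
    gg s p ρ (Fin.snoc (α := fun _ => E d) w x : Fin (n + 1) → E d) =
      gg s p ρ w * (closedBall p ρ).indicator
        (fun x => hh s (Submodule.span ℝ (Set.range w)) x) x := by
  unfold gg
  rw [Fin.prod_univ_castSucc]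
  congr 1
  · refine Finset.prod_congr rfl fun l _ => ?_
    rw [Fs_castSucc]
    simp only [Fin.snoc_castSucc]
  · rw [Fs_last]
    simp only [Fin.snoc_castSucc, Fin.snoc_last]

theorem hh_measurable {d : ℕ} (s : ℕ) (F : Submodule ℝ (E d)) : Measurable (hh s F) := by
  unfold hh
  have h1 : Measurable fun x : E d => infDist x (F : Set (E d)) := (continuous_infDist_pt _).measurable
  exact (ENNReal.measurable_ofReal.comp (h1.pow_const s)).inv

theorem tuple_integral (hINF : TaskINF) (hVBP : TaskVBP) {d j : ℕ} (hj : j ≤ d)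
    (hjd : 10 * j ≤ d) (p : E d) (ρ : ℝ) (hρ : 0 < ρ) : ∀ n : ℕ, n ≤ j →
    ∫⁻ v : Fin n → E d, gg (d - j) p ρ v ≤
      ENNReal.ofReal (d * (vb d * exp ((21 / 125) * d)) * ρ ^ j) ^ n := by
  intro n
  induction n with
  | zero =>
    intro _
    have h1 : ∀ v : Fin 0 → E d, gg (d - j) p ρ v = 1 := by
      intro v
      simp [gg]
    simp only [h1, lintegral_const, one_mul, pow_zero]
    have : (volume : Measure (Fin 0 → E d)) = Measure.pi (fun _ => volume) := rfl
    rw [this, Measure.pi_of_empty]
    simp
  | succ n ih =>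
    intro hn
    set K := ENNReal.ofReal (d * (vb d * exp ((21 / 125) * d)) * ρ ^ j) with hK
    set e := MeasurableEquiv.piFinSuccAbove (fun _ : Fin (n + 1) => E d) (Fin.last n) with he
    have hmp : MeasurePreserving e := volume_preserving_piFinSuccAbove (fun _ => E d) (Fin.last n)
    have hsw : MeasurePreserving (Prod.swap : (E d) × (Fin n → E d) → (Fin n → E d) × (E d))
        (volume.prod volume) (volume.prod volume) := Measure.measurePreserving_swap
    set G : (Fin n → E d) × E d → ENNReal := fun z => gg (d - j) p ρ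
          (Fin.snoc (α := fun _ => E d) z.1 z.2 : Fin (n + 1) → E d) with hG
    have hg : ∀ v : Fin (n + 1) → E d, gg (d - j) p ρ v = G (Prod.swap (e v)) := by
      intro v
      rw [hG]
      simp only
      congr 1
      ext i
      refine Fin.lastCases ?_ (fun i => ?_) i
      · simp [he, MeasurableEquiv.piFinSuccAbove]
      · simp [he, MeasurableEquiv.piFinSuccAbove]
        rfl
    rw [lintegral_congr hg]
    have hcomp : MeasurePreserving (fun v => Prod.swap (e v))
        (volume : Measure (Fin (n + 1) → E d)) (volume.prod volume) := hsw.comp hmp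
    have hemb : MeasurableEmbedding (fun v => Prod.swap (e v)) :=
      MeasurableEquiv.prodComm.measurableEmbedding.comp e.measurableEmbedding
    rw [hcomp.lintegral_comp_emb hemb G]
    refine (lintegral_prod_le _).trans ?_
    have h2 : ∀ w : Fin n → E d, ∫⁻ x, gg (d - j) p ρ
        (Fin.snoc (α := fun _ => E d) w x : Fin (n + 1) → E d) ≤ gg (d - j) p ρ w * K := by
      intro w
      simp only [gg_succ]
      rw [lintegral_const_mul _ ((hh_measurable _ _).indicator measurableSet_closedBall)]
      refine mul_le_mul_right (step_integral hINF hVBP hj hjd _ ?_ p ρ hρ) _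
      have := finrank_range_le_card (R := ℝ) w
      rw [Fintype.card_fin, Set.finrank] at this
      omega
    refine (lintegral_mono h2).trans ?_
    rw [lintegral_mul_const' _ _ ENNReal.ofReal_ne_top, pow_succ]
    exact mul_le_mul_left (ih (by omega)) _

end Pool.Agent.H612K.CP
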