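import Mathlib
import Pool.Agent.H612K.CP.Rset2

set_option autoImplicit false

open MeasureTheory Metric Real

namespace Pool.Agent.H612K.CP

open Pool.Agent.H624R3.CP

theorem gram_continuous {d j : ℕ} : Continuous (fun v : Fin j → E d => gram v) := by
  unfold gram
  refine Continuous.matrix_det ?_
  refine continuous_matrix fun a b => ?_
  have h1 : Continuous fun v : Fin j → E d => v a := continuous_apply a
  have h2 : Continuous fun v : Fin j → E d => v b := continuous_apply b
  exact h1.inner h2

theorem fiber_bound (hINF : TaskINF) (hVBP : TaskVBP) {d j : ℕ}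
    (hjd : 10 * j ≤ d) (p : E d) (ρ κ : ℝ) (hρ : 0 < ρ) (hκ : 0 < κ) :
    volume {v : Fin j → E d | (∀ l, v l ∈ closedBall p ρ) ∧ gram v ≤ κ ^ (2 * j)} ≤
      ENNReal.ofReal (κ ^ (j * (d - j))) *
        ENNReal.ofReal (d * (vb d * exp ((21 / 125) * d)) * ρ ^ j) ^ j := by
  set S := {v : Fin j → E d | (∀ l, v l ∈ closedBall p ρ) ∧ gram v ≤ κ ^ (2 * j)} with hS
  have hSc : IsClosed S := by
    have h1 : IsClosed {v : Fin j → E d | ∀ l, v l ∈ closedBall p ρ} := by
      simp only [Set.ofPred_forall]
      exact isClosed_iInter fun l => isClosed_closedBall.preimage (continuous_apply l)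
    exact h1.inter (isClosed_le gram_continuous continuous_const)
  rw [← lintegral_indicator_one hSc.measurableSet]
  have h2 : ∀ v : Fin j → E d, S.indicator 1 v ≤
      ENNReal.ofReal (κ ^ (j * (d - j))) * gg (d - j) p ρ v := by
    intro v
    by_cases hv : v ∈ S
    · rw [Set.indicator_of_mem hv]
      have h3 := one_le_prod (s := d - j) v κ hκ hv.2
      refine h3.trans (le_of_eq ?_)
      congr 1
      unfold gg
      refine Finset.prod_congr rfl fun l _ => ?_
      rw [Set.indicator_of_mem (hv.1 l)]
    · rw [Set.indicator_of_notMem hv]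
      exact zero_le
  refine (lintegral_mono h2).trans ?_
  rw [lintegral_const_mul' _ _ ENNReal.ofReal_ne_top]
  exact mul_le_mul_right (tuple_integral hINF hVBP (by omega) hjd p ρ hρ j le_rfl) _

theorem taskRSET : TaskINF → TaskVBP → TaskBSET → TaskRSET := by
  intro hINF hVBP hB d j ρ κ η hj hjd hρ hκ hη
  have hd : 1 ≤ d := by omega
  have hcomp : IsCompact (Rset d j ρ κ) :=
    (hB d j ρ η hd hρ hη).1.inter_right (isClosed_le gram_continuous continuous_const)
  refine ⟨hcomp, ?_⟩
  set ρ' := ρ + η with hρ'
  have hρ'0 : 0 < ρ' := by positivity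
  set M := ENNReal.ofReal (κ ^ (j * (d - j))) *
        ENNReal.ofReal (d * (vb d * exp ((21 / 125) * d)) * ρ' ^ j) ^ j with hM
  set W : Set (E d × (Fin j → E d)) := {z | ‖z.1‖ ≤ ρ' ∧ (∀ l, z.2 l ∈ closedBall z.1 ρ') ∧
    gram z.2 ≤ κ ^ (2 * j)} with hW
  have hWc : IsClosed W := by
    have h1 : IsClosed {z : E d × (Fin j → E d) | ‖z.1‖ ≤ ρ'} :=
      isClosed_le continuous_fst.norm continuous_const
    have h2 : IsClosed {z : E d × (Fin j → E d) | ∀ l, z.2 l ∈ closedBall z.1 ρ'} := by
      simp only [Set.ofPred_forall, mem_closedBall]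
      refine isClosed_iInter fun l => isClosed_le ?_ continuous_const
      exact ((continuous_apply l).comp continuous_snd).dist continuous_fst
    have h3 : IsClosed {z : E d × (Fin j → E d) | gram z.2 ≤ κ ^ (2 * j)} :=
      isClosed_le (gram_continuous.comp continuous_snd) continuous_const
    exact h1.inter (h2.inter h3)
  have hWm := hWc.measurableSet
  -- upper bound
  have hup : (volume.prod volume) W ≤ M * volume (closedBall (0 : E d) ρ') := by
    rw [Measure.prod_apply hWm]
    have h1 : ∀ p : E d, volume (Prod.mk p ⁻¹' W) ≤ (closedBall (0 : E d) ρ').indicator (fun _ => M) p := by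
      intro p
      by_cases hp : p ∈ closedBall (0 : E d) ρ'
      · rw [Set.indicator_of_mem hp]
        refine (measure_mono ?_).trans (fiber_bound hINF hVBP hjd p ρ' κ hρ'0 hκ)
        intro v hv
        exact hv.2
      · rw [Set.indicator_of_notMem hp]
        have : Prod.mk p ⁻¹' W = ∅ := by
          ext v
          simp only [Set.mem_preimage, Set.mem_empty_iff_false, iff_false]
          intro hv
          apply hp
          rw [mem_closedBall_zero_iff]
          exact hv.1
        rw [this, measure_empty]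
    refine (lintegral_mono h1).trans ?_
    rw [lintegral_indicator measurableSet_closedBall, setLIntegral_const]
  -- lower bound
  have hlow : volume (closedBall (0 : E d) η) * volume (Rset d j ρ κ) ≤ (volume.prod volume) W := by
    rw [Measure.prod_apply_symm hWm]
    have h1 : ∀ v : Fin j → E d, (Rset d j ρ κ).indicator
        (fun _ => volume (closedBall (0 : E d) η)) v ≤ volume ((fun p => (p, v)) ⁻¹' W) := by
      intro v
      by_cases hv : v ∈ Rset d j ρ κ
      · rw [Set.indicator_of_mem hv]
        obtain ⟨⟨p0, hp0, hp1⟩, hg⟩ := hv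
        have h2 : volume (closedBall (0 : E d) η) = volume (closedBall p0 η) := by
          rw [Measure.addHaar_closedBall volume _ hη.le, Measure.addHaar_closedBall volume _ hη.le]
        rw [h2]
        refine measure_mono ?_
        intro p hp
        rw [mem_closedBall, dist_eq_norm] at hp
        refine ⟨?_, ?_, hg⟩
        · calc ‖p‖ = ‖(p - p0) + p0‖ := by rw [sub_add_cancel]
            _ ≤ ‖p - p0‖ + ‖p0‖ := norm_add_le _ _
            _ ≤ ρ' := by rw [hρ']; linarith
        · intro l
          rw [mem_closedBall, dist_eq_norm]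
          calc ‖v l - p‖ = ‖(v l - p0) - (p - p0)‖ := by congr 1; abel
            _ ≤ ‖v l - p0‖ + ‖p - p0‖ := norm_sub_le _ _
            _ ≤ ρ' := by rw [hρ']; linarith [hp1 l]
      · rw [Set.indicator_of_notMem hv]
        exact zero_le
    refine le_trans (le_of_eq ?_) (lintegral_mono h1)
    rw [lintegral_indicator hcomp.measurableSet, setLIntegral_const]
  have hboth := hlow.trans hup
  rw [Measure.addHaar_closedBall volume _ hη.le, Measure.addHaar_closedBall volume _ hρ'0.le,
    finrank_euclideanSpace, Fintype.card_fin] at hboth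
  set V := volume (ball (0 : E d) 1) with hV
  have hV0 : V ≠ 0 := (measure_ball_pos volume _ one_pos).ne'
  have hVt : V ≠ ⊤ := measure_ball_lt_top.ne
  have hMt : M ≠ ⊤ := ENNReal.mul_ne_top ENNReal.ofReal_ne_top (ENNReal.pow_ne_top ENNReal.ofReal_ne_top)
  have h1 := ENNReal.toReal_mono (ENNReal.mul_ne_top hMt
    (ENNReal.mul_ne_top ENNReal.ofReal_ne_top hVt)) hboth
  have e1 : (ENNReal.ofReal (η ^ d) * V * volume (Rset d j ρ κ)).toReal =
      η ^ d * V.toReal * (volume (Rset d j ρ κ)).toReal := by
    rw [ENNReal.toReal_mul, ENNReal.toReal_mul, ENNReal.toReal_ofReal (by positivity)]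
  have e2' : ∀ X : ENNReal, (X * (ENNReal.ofReal (ρ' ^ d) * V)).toReal =
      X.toReal * (ρ' ^ d * V.toReal) := by
    intro X
    rw [ENNReal.toReal_mul, ENNReal.toReal_mul, ENNReal.toReal_ofReal (by positivity)]
  have e2 := e2' M
  rw [e1, e2] at h1
  have hVr : 0 < V.toReal := ENNReal.toReal_pos hV0 hVt
  have h2 : η ^ d * (volume (Rset d j ρ κ)).toReal ≤ M.toReal * ρ' ^ d := by
    have h3 : (η ^ d * (volume (Rset d j ρ κ)).toReal) * V.toReal ≤ (M.toReal * ρ' ^ d) * V.toReal := by
      linarith
    exact le_of_mul_le_mul_right h3 hVr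
  have hMr : M.toReal = κ ^ (j * (d - j)) * (d * (vb d * exp ((21 / 125) * d)) * ρ' ^ j) ^ j := by
    have hvb : 0 ≤ vb d := ENNReal.toReal_nonneg
    rw [hM, ENNReal.toReal_mul, ENNReal.toReal_pow, ENNReal.toReal_ofReal (by positivity),
      ENNReal.toReal_ofReal (by positivity)]
  have h4 : (volume (Rset d j ρ κ)).toReal ≤ (ρ' / η) ^ d * M.toReal := by
    rw [div_pow, div_mul_eq_mul_div, le_div_iff₀ (by positivity)]
    linarith
  refine h4.trans (le_of_eq ?_)
  rw [hMr, mul_pow, mul_pow, mul_pow, ← pow_mul]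
  ring

end Pool.Agent.H612K.CP
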